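import Pool.Agent.J4.H79.GS.Local
import Pool.Agent.H367R3.GSBasic

set_option autoImplicit false

/-!
# Proper colourings with `O(Δ ^ (1 - ε))` colours of graphs without an induced forest

For every forest `F` and every `k` there are `ε > 0` and `C` such that every finite graph `G` without
induced `F` and without a clique on `k` vertices has a proper colouring with colours `0, 1, 2, …` in which
every vertex `v` has a colour less than `C (1 + d(v)) ^ (1 - ε)`. In particular
`χ(G) ≤ ⌈C (1 + Δ(G)) ^ (1 - ε)⌉`.

The Gyárfás–Sumner conjecture says that `χ(G)` is bounded. For every fixed `F` which is not a forest
(and `k ≥ 3`) there are such graphs with `χ(G) ≥ c Δ / log Δ` (random graphs of large girth). The starting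
library has the statement for the fractional chromatic number (`FractionalColouring`, same folder), from
which the statement for the chromatic number loses a factor `log |V|`.

Proof.

1. (`Peel`.) Let `D` be at least the maximum degree of `H`, and suppose that the adjacency form is at least
   `-ε D` on all balls of radius two of the graph `H[W]`. Then `m` rounds of deleting all vertices
   of degree less than `γ D` delete all of `W`, for graphs `H` without induced tree on `m + 1` vertices and
   without `k`-clique. By induction on `k` neighbourhoods are sparse, so by a spectral inequality few
   vertices have many common neighbours with a given vertex, and otherwise the tree embeds leaf by leaf.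
2. (`Cover`.) Eigenvectors living on balls of radius two are added greedily until the remaining set
   satisfies the assumption of (1); random signs give a bit for each vertex such that the expected number
   of neighbours with the same bit is smaller than half of the degree for the covered vertices, and not
   much larger for the others.
3. (`Round`, `Step`, `Super`.) There is no concentration in (2), and so this is done for `log Δ`
   independent incomplete colourings at the same time; for each vertex the sum over these is concentrated
   and the local lemma applies. After boundedly many rounds each vertex has been uncovered (so in a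
   layer of (1) of small degree) in half of the incomplete colourings.
4. (`Select`, `Rec`, `Main`.) After `O(log log Δ)` such super-rounds each vertex selects one of its partial
   colourings at random (local lemma), and the cells are coloured by induction on the maximum degree.
5. (`Local`.) Dyadic degree classes with disjoint sets of colours.
-/

namespace Pool.Agent.Results.MP_763321_co.ChromaticPower

open Pool.Agent.J4.H79.GS Pool.Agent.Y394.AT

theorem result (m : ℕ) (F : SimpleGraph (Fin m)) (hF : F.IsAcyclic) (k : ℕ) :
    ∃ ε C : ℝ, 0 < ε ∧ ε < 1 ∧ 0 < C ∧ ∀ (V : Type) [Fintype V] (G : SimpleGraph V)
      [DecidableRel G.Adj], ¬ F.IsIndContained G → G.CliqueFree k →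
      ∃ c : V → ℕ, (∀ u v, G.Adj u v → c u ≠ c v) ∧
        ∀ v, (c v : ℝ) < C * (1 + (G.degree v : ℝ)) ^ (1 - ε) := by
  classical
  obtain ⟨T, hT, ⟨ι0⟩⟩ := Pool.Agent.H367R3.forest_in_tree F hF
  obtain ⟨q, C, hq, hC, hmain⟩ := main_local m k T hT
  have hqr : (2 : ℝ) ≤ q := by exact_mod_cast hq
  refine ⟨1 / q, C, by positivity, ?_, hC, ?_⟩
  · rw [div_lt_one (by linarith)]
    linarith
  intro V _ G _ hFG hfree
  obtain ⟨c, hc1, hc2⟩ := hmain V G hfree ⟨fun e => hFG ⟨ι0.trans e⟩⟩
  refine ⟨c, hc1, ?_⟩
  intro v
  have hnb : (nb G v).card = G.degree v := by
    rw [← SimpleGraph.card_neighborFinset_eq_degree]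
    congr 1
    ext w
    rw [mem_nb, SimpleGraph.mem_neighborFinset]
  have h := hc2 v
  rw [hnb] at h
  exact h

end Pool.Agent.Results.MP_763321_co.ChromaticPower
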