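import Pool.Agent.J4.H79.GW.Orient
import Pool.Agent.J4.H79.GW.Eig
import Pool.Agent.H367R3.GSBasic

set_option autoImplicit false

/-!
# Fractional colourings of graphs without an induced forest: orientations, degeneracy, eigenvalues

For every forest `F` and every `k` there are `ε > 0` and `c > 0` with the following properties. Let `G` be
a finite graph without induced `F` and without a clique on `k` vertices.

1. For EVERY orientation of the edges of `G` (out-neighbourhoods `out(v)`) there is a random independent set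
   which contains every vertex `v` with probability at least `c / (1 + |out(v)|) ^ (1 - ε)`.
2. For every orientation and all vertex weights there is an independent set of weight at least
   `c ∑ w(v) / (1 + |out(v)|) ^ (1 - ε)`.
3. If `G` is `d`-degenerate, there is a random independent set which contains every vertex with
   probability at least `c / (1 + d) ^ (1 - ε)`: the fractional chromatic number is at most
   `(1 + d) ^ (1 - ε) / c`.
4. If all eigenvalues of `G` are at least `-t`, this holds with `t` in the place of `d`.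
5. If `D ≥ 1` and `w` are weights with `∑ min(w(u), w(v)) ≤ D w(v)` for all `v` (sum over the neighbours `u`
   of `v`), there is an independent set of weight at least `c w(V) / D ^ (1 - ε)`.

The Gyárfás–Sumner conjecture says that the fractional chromatic number, and the chromatic number, are
bounded. The bound `d + 1` in terms of the degeneracy is trivial. With `out(v)` the set of all neighbours
of `v`, (1) and (2) are the starting results `FractionalColouring` (same folder); there is no bound on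
the degrees now, and a vertex may have few out-neighbours and many in-neighbours. For `F` which is not a
forest (and `k ≥ 3`) only a logarithmic improvement of the trivial bound is possible in (3), even for
regular graphs.

Proof.  (`GW.Struct`.) The structure theorem for weighted graphs: let `b(u, v) = min(μ(u), μ(v))` for edges
and `∑_u b(u, v) ≤ D μ(v)`. If the form with coefficients `b` is at least `-ε D ∑ μ f ^ 2` on functions
supported on `U`, then the edges inside `U` have total weight at most `γ D μ(U)` (see the file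
`SmallestEigenvalue`, same folder). (`GW.Cut`.) So if the edges have total weight at least
`γ D μ(V)`, then functions `f_1, f_2, …` with `∑ f_j ^ 2 ≤ 1` and form at most `-ε D ∑ μ f_j ^ 2` can
be chosen greedily until vertices of at least a constant proportion of the weight are covered, and random
signs, clipping and rounding give a cut for which the weight inside the parts is at most
`(1/2 - c)` of the total weight. (`GW.Indep`.) Let `U` minimise `e(U) / μ(U) ^ (2 + τ)`
among the sets with `μ(U) ≥ σ μ(V)`; deleting one vertex shows that `G[U]` is nearly regular in the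
weighted sense, so (`GW.Cut`) can be applied to `G[U]`, and `U` has small relative density
if `σ` is small; the lighter end of every edge in `U` is deleted. This gives (5). (`GW.Orient`.) Let
`|out(v)| ≤ d`. The vertices `u` for which the in-neighbours have weight at most `2 d w(u)` have at least
half of the total weight, and (5) with `D = 3 d` applies to them. Dyadic classes of `|out(v)|` and the
minimax theorem give (2) and (1).
-/

namespace Pool.Agent.Results.MP_763321_co.DegeneracyFractional

open Pool.Agent.J4.H79.GW Pool.Agent.R50.MC Pool.Agent.Y394.AT Finset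

/-- an orientation from an elimination order -/
theorem exists_out {V : Type} [Fintype V] (G : SimpleGraph V) {d : ℕ}
    (hd : ∀ S : Finset V, S.Nonempty → ∃ v ∈ S, ∀ A : Finset V,
      (∀ w, w ∈ A ↔ G.Adj v w ∧ w ∈ S) → A.card ≤ d) :
    ∃ out : V → Finset V, (∀ u v, G.Adj u v → u ∈ out v ∨ v ∈ out u) ∧ ∀ v, (out v).card ≤ d := by
  classical
  have hind : ∀ (n : ℕ) (S : Finset V), S.card = n →
      ∃ out : V → Finset V, (∀ u ∈ S, ∀ v ∈ S, G.Adj u v → u ∈ out v ∨ v ∈ out u) ∧
        ∀ v, (out v).card ≤ d := by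
    intro n
    induction n with
    | zero =>
      intro S hS
      rw [Finset.card_eq_zero.1 hS]
      exact ⟨fun _ => ∅, fun u hu => absurd hu (Finset.notMem_empty u), fun _ => by simp⟩
    | succ n ih =>
      intro S hS
      have hSne : S.Nonempty := by
        rw [← Finset.card_pos]
        omega
      obtain ⟨v1, hv1, hdeg1⟩ := hd S hSne
      obtain ⟨out, h1, h2⟩ := ih (S.erase v1) (by rw [Finset.card_erase_of_mem hv1, hS]; rfl)
      refine ⟨fun v => if v = v1 then S.filter (fun w => G.Adj v1 w) else out v, ?_, ?_⟩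
      · intro u hu v hv huv
        by_cases hu1 : u = v1
        · right
          simp only [if_pos hu1]
          rw [Finset.mem_filter, ← hu1]
          exact ⟨hv, huv⟩
        · by_cases hv2 : v = v1
          · left
            simp only [if_pos hv2]
            rw [Finset.mem_filter, ← hv2]
            exact ⟨hu, huv.symm⟩
          · simp only [if_neg hu1, if_neg hv2]
            exact h1 u (Finset.mem_erase.2 ⟨hu1, hu⟩) v (Finset.mem_erase.2 ⟨hv2, hv⟩) huv
      · intro v
        by_cases hv : v = v1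
        · simp only [if_pos hv]
          apply hdeg1
          intro w
          rw [Finset.mem_filter]
          tauto
        · simp only [if_neg hv]
          exact h2 v
  obtain ⟨out, h1, h2⟩ := hind _ univ rfl
  exact ⟨out, fun u v => h1 u (Finset.mem_univ u) v (Finset.mem_univ v), h2⟩

/-- `out` is an orientation of `G` (every edge is counted at one of its ends at least); `p` is the
distribution of a random independent set. -/
theorem result (m : ℕ) (F : SimpleGraph (Fin m)) (hF : F.IsAcyclic) (k : ℕ) :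
    ∃ ε c : ℝ, 0 < ε ∧ ε < 1 ∧ 0 < c ∧ ∀ (V : Type) [Fintype V] [DecidableEq V]
      (G : SimpleGraph V) [DecidableRel G.Adj], ¬ F.IsIndContained G → G.CliqueFree k →
      -- orientations
      (∀ out : V → Finset V, (∀ u v, G.Adj u v → u ∈ out v ∨ v ∈ out u) →
        (∃ p : Finset V → ℝ, (∀ I, 0 ≤ p I) ∧ ∑ I, p I = 1 ∧
          (∀ I, p I ≠ 0 → G.IsIndepSet (I : Set V)) ∧
          ∀ v, c / (1 + ((out v).card : ℝ)) ^ (1 - ε) ≤ ∑ I ∈ univ.filter (fun I => v ∈ I), p I) ∧
        (∀ w : V → ℝ, (∀ v, 0 ≤ w v) → ∃ I : Finset V, G.IsIndepSet (I : Set V) ∧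
          c * ∑ v, w v / (1 + ((out v).card : ℝ)) ^ (1 - ε) ≤ ∑ v ∈ I, w v)) ∧
      -- degeneracy
      (∀ d : ℕ, (∀ S : Finset V, S.Nonempty → ∃ v ∈ S, (S.filter (fun w => G.Adj v w)).card ≤ d) →
        ∃ p : Finset V → ℝ, (∀ I, 0 ≤ p I) ∧ ∑ I, p I = 1 ∧
          (∀ I, p I ≠ 0 → G.IsIndepSet (I : Set V)) ∧
          ∀ v, c / (1 + (d : ℝ)) ^ (1 - ε) ≤ ∑ I ∈ univ.filter (fun I => v ∈ I), p I) ∧
      -- smallest eigenvalue
      (∀ t : ℝ, (∀ x ∈ spectrum ℝ (G.adjMatrix ℝ), -t ≤ x) →
        ∃ p : Finset V → ℝ, (∀ I, 0 ≤ p I) ∧ ∑ I, p I = 1 ∧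
          (∀ I, p I ≠ 0 → G.IsIndepSet (I : Set V)) ∧
          ∀ v, c / (1 + t) ^ (1 - ε) ≤ ∑ I ∈ univ.filter (fun I => v ∈ I), p I) ∧
      -- weights
      (∀ (w : V → ℝ) (D : ℝ), (∀ v, 0 ≤ w v) → 1 ≤ D →
        (∀ v, ∑ u ∈ G.neighborFinset v, min (w u) (w v) ≤ D * w v) →
        ∃ I : Finset V, G.IsIndepSet (I : Set V) ∧ c / D ^ (1 - ε) * ∑ v, w v ≤ ∑ v ∈ I, w v) := by
  classical
  obtain ⟨T, hT, ⟨ι0⟩⟩ := Pool.Agent.H367R3.forest_in_tree F hF
  obtain ⟨ε₁, c₁, hε₁, hε₁', hc₁, hc₁', h₁⟩ := wrandom m k T hT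
  obtain ⟨ε₂, c₂, hε₂, hε₂', hc₂, hc₂', h₂⟩ := wlocal m k T hT
  obtain ⟨ε₃, hε₃, hε₃', h₃⟩ := windep m k T hT
  obtain ⟨C, hC, hdegen⟩ := degen m T hT k
  obtain ⟨ε, hε⟩ : ∃ ε : ℝ, ε = min (min ε₁ ε₂) ε₃ := ⟨_, rfl⟩
  have hε0 : 0 < ε := by rw [hε]; exact lt_min (lt_min hε₁ hε₂) hε₃
  have hεε₁ : ε ≤ ε₁ := by rw [hε]; exact (min_le_left _ _).trans (min_le_left _ _)
  have hεε₂ : ε ≤ ε₂ := by rw [hε]; exact (min_le_left _ _).trans (min_le_right _ _)
  have hεε₃ : ε ≤ ε₃ := by rw [hε]; exact min_le_right _ _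
  have hε1 : ε < 1 := lt_of_le_of_lt hεε₁ hε₁'
  obtain ⟨c, hc⟩ : ∃ c : ℝ, c = min (min (c₁ / C) c₂) (1 / 10) := ⟨_, rfl⟩
  have hC0 : 0 < C := by linarith
  have hc0 : 0 < c := by
    rw [hc]
    exact lt_min (lt_min (by positivity) hc₂) (by norm_num)
  have hcc₁C : c ≤ c₁ / C := by rw [hc]; exact (min_le_left _ _).trans (min_le_left _ _)
  have hcc₁ : c ≤ c₁ := by
    refine hcc₁C.trans ?_
    rw [div_le_iff₀ hC0]
    nlinarith
  have hcc₂ : c ≤ c₂ := by rw [hc]; exact (min_le_left _ _).trans (min_le_right _ _)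
  have hcc₃ : c ≤ 1 / 10 := by rw [hc]; exact min_le_right _ _
  have hpow : ∀ (x e : ℝ), 1 ≤ x → ε ≤ e → x ^ (1 - e) ≤ x ^ (1 - ε) := by
    intro x e hx he
    exact Real.rpow_le_rpow_of_exponent_le hx (by linarith)
  refine ⟨ε, c, hε0, hε1, hc0, ?_⟩
  intro V _ _ G _ hFG hfree
  have hemp : IsEmpty (T ↪g G) := ⟨fun e => hFG ⟨ι0.trans e⟩⟩
  have hdegenerate : ∀ d : ℕ, (∀ S : Finset V, S.Nonempty → ∃ v ∈ S, ∀ A : Finset V,
      (∀ w, w ∈ A ↔ G.Adj v w ∧ w ∈ S) → A.card ≤ d) →
      ∃ p : Finset V → ℝ, (∀ I, 0 ≤ p I) ∧ ∑ I, p I = 1 ∧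
        (∀ I, p I ≠ 0 → G.IsIndepSet (I : Set V)) ∧
        ∀ v, c₁ / (1 + (d : ℝ)) ^ (1 - ε₁) ≤ ∑ I ∈ univ.filter (fun I => v ∈ I), p I := by
    intro d hd
    obtain ⟨out, hout, hcard⟩ := exists_out G hd
    obtain ⟨p, hp1, hp2, hp3, hp4⟩ := h₁ V G hfree hemp out hout
    refine ⟨p, hp1, hp2, hp3, fun v => le_trans ?_ (hp4 v)⟩
    apply div_le_div_of_nonneg_left hc₁.le (by positivity)
    apply Real.rpow_le_rpow (by positivity) _ (by linarith)
    have : ((out v).card : ℝ) ≤ d := by exact_mod_cast hcard v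
    linarith
  refine ⟨?_, ?_, ?_, ?_⟩
  · intro out hout
    constructor
    · obtain ⟨p, hp1, hp2, hp3, hp4⟩ := h₁ V G hfree hemp out hout
      refine ⟨p, hp1, hp2, hp3, fun v => le_trans ?_ (hp4 v)⟩
      apply div_le_div₀ hc₁.le hcc₁ (by positivity)
      exact hpow _ _ (by have : (0 : ℝ) ≤ (out v).card := Nat.cast_nonneg _
                         linarith) hεε₁
    · intro w hw
      obtain ⟨I, hI, hIw⟩ := h₂ V G hfree hemp out hout w hw
      refine ⟨I, hI, le_trans ?_ hIw⟩
      rw [Finset.mul_sum, Finset.mul_sum]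
      apply Finset.sum_le_sum
      intro v _
      have h1 : w v / (1 + ((out v).card : ℝ)) ^ (1 - ε) ≤
          w v / (1 + ((out v).card : ℝ)) ^ (1 - ε₂) := by
        apply div_le_div_of_nonneg_left (hw v) (by positivity)
        exact hpow _ _ (by have : (0 : ℝ) ≤ (out v).card := Nat.cast_nonneg _
                           linarith) hεε₂
      have h2 : 0 ≤ w v / (1 + ((out v).card : ℝ)) ^ (1 - ε) := by
        have := hw v
        positivity
      exact mul_le_mul hcc₂ h1 h2 hc₂.le
  · intro d hd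
    obtain ⟨p, hp1, hp2, hp3, hp4⟩ := hdegenerate d (by
      intro S hS
      obtain ⟨v, hv, hv2⟩ := hd S hS
      refine ⟨v, hv, fun A hA => ?_⟩
      have hAe : A = S.filter (fun w => G.Adj v w) := by
        ext w
        rw [hA, Finset.mem_filter]
        tauto
      rw [hAe]
      exact hv2)
    refine ⟨p, hp1, hp2, hp3, fun v => le_trans ?_ (hp4 v)⟩
    apply div_le_div₀ hc₁.le hcc₁ (by positivity)
    exact hpow _ _ (by have : (0 : ℝ) ≤ (d : ℝ) := Nat.cast_nonneg _
                       linarith) hεε₁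
  · intro t hspec
    rcases isEmpty_or_nonempty V with hV | ⟨⟨v0⟩⟩
    · obtain ⟨p, hp1, hp2, hp3, -⟩ := hdegenerate 0 (by
        intro S hS
        obtain ⟨v, -⟩ := hS
        exact (hV.false v).elim)
      exact ⟨p, hp1, hp2, hp3, fun v => (hV.false v).elim⟩
    have hq : ∀ f : V → ℝ, -t * N2 f ≤ q G f := form_of_spec hspec
    have ht := lam_nonneg hq v0
    obtain ⟨p, hp1, hp2, hp3, hp4⟩ := hdegenerate ⌊C * t⌋₊ (by
      intro S hS
      obtain ⟨v, hv, hv2⟩ := hdegen V G hfree hemp t hq S hS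
      exact ⟨v, hv, fun A hA => Nat.le_floor (hv2 A hA)⟩)
    refine ⟨p, hp1, hp2, hp3, fun v => le_trans ?_ (hp4 v)⟩
    have h1 : (1 + ((⌊C * t⌋₊ : ℕ) : ℝ)) ≤ C * (1 + t) := by
      have := Nat.floor_le (show 0 ≤ C * t by positivity)
      nlinarith
    have h2 : (1 + ((⌊C * t⌋₊ : ℕ) : ℝ)) ^ (1 - ε₁) ≤ C * (1 + t) ^ (1 - ε) := by
      calc (1 + ((⌊C * t⌋₊ : ℕ) : ℝ)) ^ (1 - ε₁) ≤ (C * (1 + t)) ^ (1 - ε₁) :=
            Real.rpow_le_rpow (by positivity) h1 (by linarith)
        _ = C ^ (1 - ε₁) * (1 + t) ^ (1 - ε₁) := Real.mul_rpow hC0.le (by linarith)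
        _ ≤ C * (1 + t) ^ (1 - ε) := by
            apply mul_le_mul _ (hpow _ _ (by linarith) hεε₁) (by positivity) hC0.le
            calc C ^ (1 - ε₁) ≤ C ^ (1 : ℝ) :=
                  Real.rpow_le_rpow_of_exponent_le hC (by linarith)
              _ = C := Real.rpow_one C
    have h3 : 0 < (1 + t) ^ (1 - ε) := by positivity
    have h4 : 0 < (1 + ((⌊C * t⌋₊ : ℕ) : ℝ)) ^ (1 - ε₁) := by positivity
    rw [div_le_div_iff₀ h3 h4]
    calc c * (1 + ((⌊C * t⌋₊ : ℕ) : ℝ)) ^ (1 - ε₁) ≤ (c₁ / C) * (C * (1 + t) ^ (1 - ε)) :=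
          mul_le_mul hcc₁C h2 h4.le (by positivity)
      _ = c₁ * (1 + t) ^ (1 - ε) := by field_simp
  · intro w D hw hD hdeg
    obtain ⟨I, hI, hIw⟩ := h₃ V G w hw hfree hemp D hD (by
      intro v
      refine le_trans (le_of_eq ?_) (hdeg v)
      have e1 : ∀ u, b G w v u = if u ∈ G.neighborFinset v then min (w u) (w v) else 0 := by
        intro u
        unfold b
        by_cases h : G.Adj v u
        · rw [if_pos h, if_pos ((SimpleGraph.mem_neighborFinset G v u).2 h), min_comm]
        · rw [if_neg h, if_neg (fun h' => h ((SimpleGraph.mem_neighborFinset G v u).1 h'))]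
      rw [Finset.sum_congr rfl (fun u _ => e1 u), ← Finset.sum_filter,
        Finset.filter_mem_eq_inter, Finset.univ_inter])
    refine ⟨I, hI, le_trans ?_ hIw⟩
    apply mul_le_mul_of_nonneg_right _ (Finset.sum_nonneg fun v _ => hw v)
    have h1 : c / D ^ (1 - ε) ≤ (1 / 10) / D ^ (1 - ε₃) := by
      apply div_le_div₀ (by norm_num) hcc₃ (by positivity)
      exact hpow _ _ hD hεε₃
    refine h1.trans (le_of_eq ?_)
    rw [div_div]

end Pool.Agent.Results.MP_763321_co.DegeneracyFractional
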