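import Pool.Agent.J4.H79.GW.Eig
import Pool.Agent.J4.H79.GW.Down2
import Pool.Agent.H367R3.GSBasic

set_option autoImplicit false

/-!
# Graphs without an induced forest: the largest eigenvalue, the degeneracy, the chromatic number and the
degrees are bounded in terms of the smallest eigenvalue as the Gyárfás–Sumner conjecture predicts

For every forest `F` and every `k` there is a constant `C` such that every finite graph `G` without
induced `F` and without a clique on `k` vertices, all eigenvalues of which are at least `-λ`, satisfies: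

1. every nonempty set `S` of vertices contains a vertex with at most `C λ` neighbours in `S`
   (the degeneracy is at most `C λ`);
2. `χ(G) ≤ C λ + 1`;
3. all degrees are at most `C λ ^ 2`;
4. all eigenvalues are at most `C λ`.

So `|λ_min|` is at least a constant times `λ_max`, and at least a constant times the degeneracy. As the
hypotheses are inherited by induced subgraphs, this holds for all induced subgraphs too.

If the Gyárfás–Sumner conjecture is true, all induced subgraphs of `G` have chromatic number at most a
constant `χ₀`, and then by Hoffman's bound `1 + λ_max(H) / |λ_min(H)| ≤ χ(H) ≤ χ₀`, so that (1), (3) and (4)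
follow; (4) says that Hoffman's lower bound for the chromatic number is bounded, as the conjecture
predicts. For every `F` which is not a forest, (1) and (4) are false for `k ≥ 3` (Ramanujan graphs of large
degree and girth: `λ = O(√d)`). The degeneracy and the maximum degree may be very different here (`1` and
`λ ^ 2` for stars), so the statement does not follow from results on graphs with maximum degree `D` and
average degree at least `γ D`.

Proof.

1. (`Struct`.) Let `μ` be nonnegative weights of the vertices, `b(u, v) = min(μ(u), μ(v))` for edges `u v`, and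
   `∑_u b(u, v) ≤ D μ(v)` for all `v`. If `∑ b(u, v) f(u) f(v) ≥ -c γ ^ q D ∑ μ f ^ 2` for all `f`, then
   `∑ b(u, v) ≤ γ D ∑ μ`. For this, let `P(u, v) = b(u, v) / (D μ(u))`. The spectral inequality
   `P ^ 2 ≤ (1 - ε) P + ε` and induction on the size of the clique show that the average of
   `P ^ n (v, v)` for the weights `μ` is at most `η` for `n = 2` and at most `η / D` for `n ≥ 3`. As
   `1 ≤ D (P(x, w) + P(w, x))` for edges `x w`, for most `p` two walks from `p` of lengths `i`, `j` with
   `2 ≤ i + j ≤ m + 1` end in equal or adjacent vertices with small probability. If `∑ b > γ D ∑ μ`, there is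
   a set `U` of such vertices `p` in which the steps of the walk have probability at least `γ / 4`, and
   the tree is embedded leaf by leaf in `U`, by steps of the walk, keeping all the probabilities that walks
   from two embedded vertices end in equal or adjacent vertices small.
2. (`Layer`.) If `A ≥ -λ`, the form with the coefficients `b(u, v)` is at least `-λ ∑ μ f ^ 2` (the matrix
   `min(μ(u), μ(v))` is positive semidefinite).
3. (`Layer`, `Degen`.) Let `S` induce a subgraph of minimum degree `d`, the degeneracy of `G`. In an elimination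
   order of `S` let `μ(v) = 1 + (1 / 2 d) ∑ μ(u)`, the sum over the earlier neighbours `u` of `v`. Then
   `∑ μ ≤ 2 |S|`, `∑_u b(u, v) ≤ 3 d μ(v)` and `∑ b ≥ d |S|`. So (1) applies with `D = 3 d`, `γ = 1 / 7`
   and shows `λ > 3 ε d`.
4. (`Down`, `Down2`.) Let `A x = Λ x`, `x ≥ 0`, `|x| = 1`, where `Λ` is the largest eigenvalue. The walk with
   the probabilities `Q(u, v) = x(v) / (Λ x(u))` for the edges `u v` with `R x(v) ≤ x(u)` goes down, and
   for all `p` two such walks from `p` of lengths `i`, `j` with `i + j ≥ 2` end in equal or adjacent vertices with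
   probability at most `2 / R`, whatever the graph is. So, as the tree is not embedded by steps of this walk,
   the vertices are divided into `m` classes such that from every vertex the walk steps inside the class
   with probability less than `δ`. The edges inside the classes with `R x(v) ≤ x(u)` or `R x(u) ≤ x(v)`
   contribute at most `2 δ Λ` to `∑ x(u) x(v)`, and the other edges inside the classes at most
   `R ∑ min(x(u) ^ 2, x(v) ^ 2)`, which is small by (1) with `μ = x ^ 2`, `D = Λ`, or else `λ ≥ c Λ`. In the first
   case the argument of Hoffman's bound for the `m` classes gives `Λ ≤ 8 m λ`.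
-/

namespace Pool.Agent.Results.MP_763321_co.SmallestEigenvalue

open Pool.Agent.J4.H79.GW Pool.Agent.R50.MC Pool.Agent.Y394.AT Finset

theorem result (m : ℕ) (F : SimpleGraph (Fin m)) (hF : F.IsAcyclic) (k : ℕ) :
    ∃ C : ℝ, 1 ≤ C ∧ ∀ (V : Type) [Fintype V] [DecidableEq V] (G : SimpleGraph V)
      [DecidableRel G.Adj], ¬ F.IsIndContained G → G.CliqueFree k →
      ∀ lam : ℝ, (∀ x ∈ spectrum ℝ (G.adjMatrix ℝ), -lam ≤ x) →
      (∀ S : Finset V, S.Nonempty → ∃ v ∈ S, ((S.filter (fun w => G.Adj v w)).card : ℝ) ≤ C * lam) ∧
      G.Colorable (⌊C * lam⌋₊ + 1) ∧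
      (∀ v, (G.degree v : ℝ) ≤ C * lam ^ 2) ∧
      (∀ x ∈ spectrum ℝ (G.adjMatrix ℝ), x ≤ C * lam) := by
  classical
  obtain ⟨T, hT, ⟨ι0⟩⟩ := Pool.Agent.H367R3.forest_in_tree F hF
  obtain ⟨C0, hC0, hdegen⟩ := degen m T hT k
  obtain ⟨C1, hC1, htop⟩ := top2 m T hT k
  obtain ⟨a, ha⟩ : ∃ a : ℝ, a = 2 * C0 + 1 := ⟨_, rfl⟩
  have ha1 : 1 ≤ a := by rw [ha]; linarith
  refine ⟨max a C1, ha1.trans (le_max_left _ _), ?_⟩
  intro V _ _ G _ hFG hfree lam hspec
  obtain ⟨C, hC⟩ : ∃ C : ℝ, C = max a C1 := ⟨_, rfl⟩
  rw [← hC]
  have hCa : a ≤ C := by rw [hC]; exact le_max_left _ _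
  have hC0C : C0 ≤ C := by
    have : C0 ≤ a := by rw [ha]; linarith
    exact this.trans hCa
  have hC1C : C1 ≤ C := by rw [hC]; exact le_max_right _ _
  have hemp : IsEmpty (T ↪g G) := ⟨fun e => hFG ⟨ι0.trans e⟩⟩
  have hq : ∀ f : V → ℝ, -lam * N2 f ≤ q G f := form_of_spec hspec
  have hdg := hdegen V G hfree hemp lam hq
  have hdg' : ∀ S : Finset V, S.Nonempty → ∃ v ∈ S, ∀ A : Finset V,
      (∀ w, w ∈ A ↔ G.Adj v w ∧ w ∈ S) → (A.card : ℝ) ≤ C * lam := by
    intro S hS
    obtain ⟨v, hv, hv2⟩ := hdg S hS
    refine ⟨v, hv, fun A hA => (hv2 A hA).trans ?_⟩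
    exact mul_le_mul_of_nonneg_right hC0C (lam_nonneg hq v)
  refine ⟨?_, ?_, ?_, ?_⟩
  · intro S hS
    obtain ⟨v, hv, hv2⟩ := hdg' S hS
    refine ⟨v, hv, hv2 _ ?_⟩
    intro w
    rw [Finset.mem_filter]
    tauto
  · apply colour_degen
    intro S hS
    obtain ⟨v, hv, hv2⟩ := hdg' S hS
    exact ⟨v, hv, fun A hA => Nat.le_floor (hv2 A hA)⟩
  · intro v
    have h1 := maxdeg hC0 hdg hq v
    have hnb : (nb G v).card = G.degree v := by
      rw [← SimpleGraph.card_neighborFinset_eq_degree]
      congr 1
      ext w
      rw [mem_nb, SimpleGraph.mem_neighborFinset]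
    rw [hnb, ← ha] at h1
    exact h1.trans (mul_le_mul_of_nonneg_right hCa (sq_nonneg _))
  · rcases isEmpty_or_nonempty V with hV | ⟨⟨v0⟩⟩
    · intro x hx
      exfalso
      rw [spectrum.mem_iff] at hx
      exact hx (isUnit_of_subsingleton _)
    have hlam := lam_nonneg hq v0
    have hform : ∀ f : V → ℝ, q G f ≤ (C * lam) * N2 f := by
      intro f
      refine (htop V G hfree hemp lam hq f).trans ?_
      apply mul_le_mul_of_nonneg_right _ (N2_nonneg f)
      exact mul_le_mul_of_nonneg_right hC1C hlam
    exact spec_of_form hform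

end Pool.Agent.Results.MP_763321_co.SmallestEigenvalue
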