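import Pool.Agent.J4.H30.NL.Conseq
import Pool.Agent.H367R3.GSBasic

set_option autoImplicit false

/-!
# The Gyárfás–Sumner conjecture for the fractional chromatic number up to a factor `Δ ^ o(1)`

For every forest `F` and every `k` there are `C` and `c > 0` with the following properties.  Let `G` be a
finite graph without induced `F` and without a clique on `k` vertices.

1. There is a random independent set of `G` which contains every vertex `v` with probability at least
   `exp (- C (log (2 + d(v))) ^ (1 - c))`.  So the fractional chromatic number of `G` is at most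
   `exp (C (log (2 + Δ)) ^ (1 - c)) = Δ ^ o(1)`.
2. (Sparse Rödl theorem with nearly linear sets.) For every `δ` in `(0, 1]` there is a set `U` of at least
   `exp (- C (1 + log (1 / δ)) ^ (1 - c)) n = δ ^ o(1) n` vertices which spans at most
   `δ (|U| / n)² |E(G)|` edges.
3. For every `δ` in `(0, 1]` there is a division of the vertices into at most
   `exp (C (1 + log (1 / δ)) ^ (1 - c)) = δ ^ (- o(1))` parts with at most `δ Δ n` edges inside the parts.

The Gyárfás–Sumner conjecture says that the chromatic number is bounded; then all the exponentials can be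
replaced by constants.  For every `F` which is not a forest (and `k ≥ 3`) only a logarithmic improvement of
the bound `Δ` is possible in 1.  The starting library has 1 and 2 with `(1 + d(v)) ^ (1 - ε)` and
`δ ^ (1 / ε)` for some `ε` depending on `F` and `k` (`FractionalColouring`, same folder).

Proof.  Let `T(h)` be the complete `r`-ary tree of depth `h`, and let `d` be the maximum degree of `G[W]`.
Let `N ≤ 2 d`, `0 < β ≤ 1`, let `ε_1 > ε_2 > … > ε_h` and `a_0 > a_1 > … > a_h` be such that
`ε_j = a_(j-1) / 4` and `a_j = β ε_j / 8`.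

1. (`NL.Core`.) A pair `(A, F)` with `A ⊆ X` is *violating* at the scale `j` if `G[A]` has maximum
   degree at most `d / N`, `|F| ≤ N ^ (β ε_j / 2) |A|` and each `a ∈ A` has at most `d N ^ (- 2 ε_j)`
   neighbours in `X \ F`.  If `X` is not empty and contains no violating pair at the scales `1, …, h`, then
   it contains an induced `T(h)`: by induction on `j`, for all `A ⊆ X` with `|A| ≥ d N ^ (- a_j)` and
   maximum degree at most `d / N` and all `F` with `|F| ≤ d N ^ a_j` there is an induced `T(j)` with its
   root in `A` and its other vertices in `X \ F`.  Namely, some `x ∈ A` has at least `d N ^ (- 2 ε_j)`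
   neighbours in `X \ F`, and by induction on the clique number there is a large sparse set `Y` of such
   neighbours.  The `r` subtrees are built one after the other, with the root in `Y` and the other vertices
   outside `F`, the neighbourhoods of `x` and of the preceding subtrees, and the set of the at most
   `2 |T(j-1)| d` vertices which are adjacent to more than `|Y| / (2 |T(j-1)|)` members of `Y`.
2. (`NL.Extract`.) Otherwise violating pairs are extracted one after the other, `X := X \ (A ∪ F)`.
   The union `U` of the sets `A` of one of the scales `j` has at least `|W| N ^ (- β ε_j)` vertices,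
   and its subgraph has average degree at most `6 d N ^ (- 2 ε_j)` (`NL.Step`).
3. (`NL.Main`.) So a factor `N ^ (- ε_j)` in the degree is gained at the cost of a factor
   `N ^ (- β ε_j)` in the size.  This works with `β` about `(log N) ^ (- c)`; iteration gives, for every
   `N ≥ 1`, a set of at least `exp (- C (1 + log N) ^ (1 - c)) |W|` vertices of `W` with maximum degree
   at most `d / N`.
4. (`NL.Weighted`, `NL.Conseq`.) Weights are divided into classes as in the starting file `R50.SR`,
   degrees into dyadic classes, and the minimax theorem is used.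
-/

namespace Pool.Agent.Results.MP_763321_co.SubpolynomialFractional

open Pool.Agent.J4.H30.NL Pool.Agent.Y394.AT Finset

theorem interedges_card {V : Type} [Fintype V] [DecidableEq V] (G : SimpleGraph V)
    [DecidableRel G.Adj] (U : Finset V) :
    ((G.interedges U U).card : ℝ) = ∑ v ∈ U, ((nb G v ∩ U).card : ℝ) := by
  classical
  have h : G.interedges U U = (U ×ˢ U).filter (fun x => G.Adj x.1 x.2) := by
    ext ⟨a, b⟩
    rw [SimpleGraph.mem_interedges_iff, Finset.mem_filter, Finset.mem_product]
    tauto
  rw [h, Finset.card_filter, Finset.sum_product]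
  push_cast
  apply Finset.sum_congr rfl
  intro v _
  rw [← Finset.sum_filter, Finset.sum_const, nsmul_eq_mul, mul_one]
  congr 2
  ext w
  rw [Finset.mem_filter, Finset.mem_inter, mem_nb]
  tauto

theorem nb_card {V : Type} [Fintype V] (G : SimpleGraph V) [DecidableRel G.Adj] (v : V) :
    (nb G v).card = G.degree v := by
  rw [← SimpleGraph.card_neighborFinset_eq_degree]
  congr 1
  ext w
  rw [mem_nb, SimpleGraph.mem_neighborFinset]

open Classical in
theorem mono_edges {V : Type} [Fintype V] [DecidableEq V] (G : SimpleGraph V)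
    [DecidableRel G.Adj] {ι : Type} [DecidableEq ι] (f : V → ι) :
    2 * ((G.edgeFinset.filter (fun e => (e.map f).IsDiag)).card : ℝ) =
      ∑ v, (((nb G v).filter (fun w => f w = f v)).card : ℝ) := by
  let H : SimpleGraph V :=
    { Adj := fun u v => G.Adj u v ∧ f u = f v
      symm := ⟨fun u v h => ⟨h.1.symm, h.2.symm⟩⟩
      loopless := ⟨fun u h => G.irrefl h.1⟩ }
  have h1 : H.edgeFinset = G.edgeFinset.filter (fun x => (x.map f).IsDiag) := by
    ext x
    induction x with
    | _ u v =>
      rw [SimpleGraph.mem_edgeFinset, Finset.mem_filter, SimpleGraph.mem_edgeFinset,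
        SimpleGraph.mem_edgeSet, SimpleGraph.mem_edgeSet, Sym2.map_mk, Sym2.mk_isDiag_iff]
  have h2 := H.sum_degrees_eq_twice_card_edges
  rw [h1] at h2
  have h3 : ∀ v, ((nb G v).filter (fun w => f w = f v)).card = H.degree v := by
    intro v
    rw [← nb_card H v]
    congr 1
    ext w
    rw [Finset.mem_filter, mem_nb, mem_nb]
    exact ⟨fun h => ⟨h.1, h.2.symm⟩, fun h => ⟨h.1, h.2.symm⟩⟩
  have h4 : (∑ v, (((nb G v).filter (fun w => f w = f v)).card : ℝ)) =
      ((∑ v, H.degree v : ℕ) : ℝ) := by
    push_cast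
    exact Finset.sum_congr rfl fun v _ => by rw [h3 v]
  rw [h4, h2]
  push_cast
  rfl

/-- `G.interedges U U` is the set of ordered pairs of adjacent members of `U`; so its number of elements
is twice the number of edges inside `U`.  For an edge `e = s(u, v)`, `(e.map f).IsDiag` says that
`f u = f v`. -/
theorem result (m : ℕ) (F : SimpleGraph (Fin m)) (hF : F.IsAcyclic) (k : ℕ) :
    ∃ C c : ℝ, 0 < C ∧ 0 < c ∧ c < 1 ∧ ∀ (V : Type) [Fintype V] [DecidableEq V]
      (G : SimpleGraph V) [DecidableRel G.Adj], ¬ F.IsIndContained G → G.CliqueFree k →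
      (∃ p : Finset V → ℝ, (∀ I, 0 ≤ p I) ∧ ∑ I, p I = 1 ∧
        (∀ I, p I ≠ 0 → G.IsIndepSet (I : Set V)) ∧
        ∀ v, Real.exp (-(C * (Real.log (2 + (G.degree v : ℝ))) ^ (1 - c))) ≤
          ∑ I ∈ univ.filter (fun I => v ∈ I), p I) ∧
      (∀ δ : ℝ, 0 < δ → δ ≤ 1 → ∃ U : Finset V,
        Real.exp (-(C * (1 + Real.log (1 / δ)) ^ (1 - c))) * Fintype.card V ≤ U.card ∧
        ((G.interedges U U).card : ℝ) ≤
          δ * ((U.card : ℝ) / Fintype.card V) ^ 2 * (G.interedges univ univ).card) ∧
      (∀ δ : ℝ, 0 < δ → δ ≤ 1 → ∃ (q : ℕ) (f : V → Fin q),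
        (q : ℝ) ≤ Real.exp (C * (1 + Real.log (1 / δ)) ^ (1 - c)) ∧
        ((G.edgeFinset.filter (fun e => (e.map f).IsDiag)).card : ℝ) ≤
          δ * ((G.maxDegree : ℝ) * Fintype.card V)) := by
  classical
  obtain ⟨m', T, hT, ⟨ι0⟩⟩ : ∃ (m' : ℕ) (T : SimpleGraph (Fin (m' + 1))), T.IsTree ∧
      Nonempty (F ↪g T) := by
    obtain ⟨T, hT, h⟩ := Pool.Agent.H367R3.forest_in_tree F hF
    exact ⟨_, T, hT, h⟩
  obtain ⟨C₀, θ₀, hC₀, hθ₀0, hθ₀1, hM₀⟩ := main_all (m' + 1) (m' + 1) (by omega) k
  obtain ⟨θ, hθ⟩ : ∃ θ : ℝ, θ = max θ₀ (1 / 2) := ⟨_, rfl⟩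
  have hθ12 : 1 / 2 ≤ θ := by rw [hθ]; exact le_max_right _ _
  have hθ1 : θ < 1 := by rw [hθ]; exact max_lt hθ₀1 (by norm_num)
  have hM : MainS (m' + 1) (m' + 1) k C₀ θ :=
    mainS_mono hC₀ (by rw [hθ]; exact le_max_left _ _) hM₀
  obtain ⟨C₁, hC₁, hR⟩ := roedl hC₀ (by linarith) hθ1 hM
  obtain ⟨C₂, hC₂, hD⟩ := division hC₀ hθ12 hθ1 hM
  have hcθ : 1 - (1 - θ) = θ := by ring
  refine ⟨31 + 9 * C₀ + C₁ + C₂, 1 - θ, by linarith, by linarith, by linarith, ?_⟩
  rw [hcθ]
  intro V _ _ G _ hFG hfree
  have hno : ¬ ∃ ψ, IsCopy G (m' + 1) (m' + 1) ψ := by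
    rintro ⟨ψ, hψ⟩
    obtain ⟨e⟩ := copy_tree G m' T hT ψ hψ
    exact hFG ⟨ι0.trans e⟩
  have hfree' : G.CliqueFree (k + 1) := hfree.mono (Nat.le_succ k)
  refine ⟨?_, ?_, ?_⟩
  · obtain ⟨p, h1, h2, h3, h4⟩ := random_indep hC₀ hθ12 hθ1.le hM G hno hfree'
    refine ⟨p, h1, h2, h3, fun v => ?_⟩
    refine le_trans ?_ (h4 v)
    unfold pr
    rw [nb_card]
    apply Real.exp_le_exp.2
    have h5 : 0 ≤ Real.log (2 + (G.degree v : ℝ)) ^ θ := by
      apply Real.rpow_nonneg
      apply Real.log_nonneg
      have : (0 : ℝ) ≤ G.degree v := Nat.cast_nonneg _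
      linarith
    nlinarith
  · intro δ hδ hδ1
    obtain ⟨U, h1, h2⟩ := hR V G hno hfree' δ hδ hδ1
    refine ⟨U, ?_, ?_⟩
    · refine le_trans ?_ h1
      apply mul_le_mul_of_nonneg_right _ (Nat.cast_nonneg _)
      apply Real.exp_le_exp.2
      have h5 : 0 ≤ (1 + Real.log (1 / δ)) ^ θ := by
        apply Real.rpow_nonneg
        have : 0 ≤ Real.log (1 / δ) := Real.log_nonneg (by rw [le_div_iff₀ hδ]; linarith)
        linarith
      nlinarith
    · rw [interedges_card, interedges_card]
      refine le_trans (le_of_eq ?_) (h2.trans (le_of_eq ?_))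
      · apply Finset.sum_congr rfl
        intro v _
        congr 2
        ext w
        simp only [Finset.mem_inter]
      · congr 1
        apply Finset.sum_congr rfl
        intro v _
        rw [Finset.inter_univ]
  · intro δ hδ hδ1
    obtain ⟨q, f, h1, h2, h3⟩ := hD V G hno hfree' (G.maxDegree) (fun v => by
      rw [nb_card]
      exact_mod_cast G.degree_le_maxDegree v) δ hδ hδ1
    refine ⟨q, fun v => ⟨f v, h2 v⟩, ?_, ?_⟩
    · refine h1.trans ?_
      apply Real.exp_le_exp.2
      have h5 : 0 ≤ (1 + Real.log (1 / δ)) ^ θ := by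
        apply Real.rpow_nonneg
        have : 0 ≤ Real.log (1 / δ) := Real.log_nonneg (by rw [le_div_iff₀ hδ]; linarith)
        linarith
      nlinarith
    · have h4 := mono_edges G (fun v => (⟨f v, h2 v⟩ : Fin q))
      have h5 : ∑ v, (((nb G v).filter (fun w => (⟨f w, h2 w⟩ : Fin q) = ⟨f v, h2 v⟩)).card : ℝ) =
          ∑ v, (((nb G v).filter (fun w => f w = f v)).card : ℝ) := by
        apply Finset.sum_congr rfl
        intro v _
        congr 2
        ext w
        simp only [Finset.mem_filter, Fin.mk.injEq]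
      rw [h5] at h4
      have h6 : (0 : ℝ) ≤ (G.edgeFinset.filter (fun e => (e.map (fun v =>
        (⟨f v, h2 v⟩ : Fin q))).IsDiag)).card := Nat.cast_nonneg _
      have h7 : ∑ v, (((nb G v).filter (fun w => f w = f v)).card : ℝ) ≤
          δ * ((G.maxDegree : ℝ) * Fintype.card V) := by
        refine le_trans (le_of_eq ?_) h3
        apply Finset.sum_congr rfl
        intro v _
        congr 2
      linarith

end Pool.Agent.Results.MP_763321_co.SubpolynomialFractional
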